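import Pool.Agent.Helper41.SQC.Goals

/-!
# MP_bb32d1_al, stage C, packet ZC: the matrices of `Z(lam)` over `ℂ`
-/

set_option autoImplicit false

namespace Pool.Agent.Helper81.SQC

noncomputable section

open Matrix Pool.Agent.Helper19.SQ Pool.Agent.Helper34.SQ Pool.Agent.Helper41.SQ
  Pool.Agent.Helper4.SQ Pool.Agent.Helper41.SQC

section Gen

variable {N l : ℕ} {q : ℂ} {M : Type} [AddCommGroup M] [Module ℂ M]
    [Module (A N l q) M] [IsScalarTower ℂ (A N l q) M] {ι : Type} [Fintype ι] [DecidableEq ι]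

/-- the matrix representation of `A` on a module with a basis. -/
def mA (b : Module.Basis ι ℂ M) : A N l q →ₐ[ℂ] Matrix ι ι ℂ :=
  (LinearMap.toMatrixAlgEquiv b).toAlgHom.comp (lsmA M)

theorem mA_apply (b : Module.Basis ι ℂ M) (x : A N l q) (i j : ι) :
    mA b x i j = b.repr (x • b j) i :=
  LinearMap.toMatrixAlgEquiv_apply b (lsm x) i j

theorem mA_eq (b : Module.Basis ι ℂ M) (x : A N l q) (X : Matrix ι ι ℂ)
    (h : ∀ a, x • b a = ∑ c, X c a • b c) : mA b x = X := by
  ext i j
  rw [mA_apply, h, map_sum, Finsupp.finsetSum_apply, Finset.sum_eq_single i]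
  · rw [map_smul, b.repr_self, Finsupp.smul_apply, Finsupp.single_eq_same, smul_eq_mul, mul_one]
  · intro c _ hc
    rw [map_smul, b.repr_self, Finsupp.smul_apply, Finsupp.single_eq_of_ne hc.symm, smul_zero]
  · intro hi
    exact absurd (Finset.mem_univ i) hi

theorem mA_single (b : Module.Basis ι ℂ M) (x : A N l q) (j : ι) :
    mA b x *ᵥ Pi.single j 1 = fun i => b.repr (x • b j) i := by
  rw [Matrix.mulVec_single_one]
  funext i
  exact mA_apply b x i j

end Gen

theorem mon_map' {R S : Type} [Ring R] [Algebra ℂ R] [Ring S] [Algebra ℂ S] (N : ℕ) (q : ℂ)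
    (f : R →ₐ[ℂ] S) (E : ℕ → R) (b : ℕ → ℕ → ℕ) :
    mon N q (fun k => f (E k)) b = f (mon N q E b) := by
  simp only [mon, rowM, map_list_prod, List.map_map, Function.comp_def, rv_map, map_pow]

theorem mon_zX {R : Type} [Ring R] [Algebra ℂ R] (N l : ℕ) [NeZero l] (q : ℂ) (E : ℕ → R) :
    mon N q E (zX N l).1 = 1 := by
  simp [mon, rowM, zX]

section Mod

variable {N l : ℕ} {q : ℂ} {M : Type} [AddCommGroup M] [Module ℂ M]
    [Module (A N l q) M] [IsScalarTower ℂ (A N l q) M]

/-- `K_j^r v = qz(lam_j)^r v`. -/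
theorem pow_smul_v (c : ℂ) (x : A N l q) (v : M) (h : x • v = c • v) (r : ℕ) :
    x ^ r • v = c ^ r • v := by
  induction r with
  | zero => rw [pow_zero, pow_zero, one_smul, one_smul]
  | succ r ih =>
    rw [pow_succ, mul_smul, h, smul_smul_comm, ih, smul_smul, pow_succ, mul_comm]

theorem qz_inv [NeZero l] (h : q ^ l = 1) (a : ZMod l) : qz q a ^ (l - 1) = qz q (-a) := by
  have h0 := qz_ne_zero h a
  apply mul_right_cancel₀ h0
  rw [← pow_succ, Nat.sub_add_cancel (Nat.one_le_iff_ne_zero.2 (NeZero.ne l)), qz_pow_l h,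
    ← qz_add h, neg_add_cancel, qz_zero]

theorem kk_smul_v [NeZero l] (h : q ^ l = 1) (v : M) (i j : ℕ) (c d : ZMod l)
    (hi : gK N l q i • v = qz q c • v) (hj : gK N l q j • v = qz q d • v) :
    kk l (gK N l q) i j • v = qz q (c - d) • v := by
  unfold kk ki
  rw [mul_smul, pow_smul_v _ _ _ hj, smul_smul_comm, hi, smul_smul, qz_inv h, ← qz_add h,
    sub_eq_add_neg, add_comm]

end Mod

theorem c_zc (hZB : S_ZB) (hZU : S_ZUNIV) (hFD : S_FDIM) (hFM : S_FM) (hKM : S_KM) : S_ZC := by
  intro N l _ q D P V lam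
  have hql : q ^ l = 1 := P.prim.pow_eq_one
  obtain ⟨hli, hsp, -⟩ := hZB N l q D P lam
  obtain ⟨-, ⟨hE0, hK0⟩, -, -⟩ := hZU N l q P (hFD N l q P) lam
  obtain ⟨b, hb⟩ : ∃ b : Module.Basis (EX N l) ℂ (Zl q lam),
      ∀ a, b a = mon N q (gF N l q) a.1 • zgen q lam :=
    ⟨Module.Basis.mk hli hsp.ge, fun a => Module.Basis.mk_apply hli hsp.ge a⟩
  have hGl := glA N l q
  have hGT := GlT.of_glRel hGl
  -- the weights of the generator
  have hKv : ∀ j, j ≤ N → gK N l q j • zgen q lam = qz q (lx lam j) • zgen q lam := by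
    intro j hj
    have := hK0 ⟨j, Nat.lt_succ_of_le hj⟩
    unfold lx
    rw [dif_pos (Nat.lt_succ_of_le hj)]
    exact this
  -- the images of the generators
  have hF : ∀ k, mA b (gF N l q k) = zF N l q ℂ k := by
    intro k
    apply mA_eq
    intro a
    rw [hb, ← mul_smul, hFM.1 (A N l q) N l q (gF N l q) P hGl.sF hGl.F_out hGl.pF k a,
      Finset.sum_smul]
    refine Finset.sum_congr rfl fun c _ => ?_
    rw [hb, smul_assoc]
    rfl
  have hK : ∀ j, mA b (gK N l q j) = zK q ℂ lam j := by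
    intro j
    apply mA_eq
    intro a
    by_cases hj : j ≤ N
    · rw [hb, ← mul_smul, hKM (A N l q) N l q _ _ (gE N l q) (gF N l q) (gK N l q) P hGT j a,
        smul_assoc, mul_smul, hKv j hj, smul_smul_comm, smul_smul, Finset.sum_eq_single a]
      · rw [zK, if_pos hj, Matrix.diagonal_apply_eq, hb, mul_comm]
        rfl
      · intro c _ hc
        rw [zK, if_pos hj, Matrix.diagonal_apply_ne _ hc, zero_smul]
      · intro ha
        exact absurd (Finset.mem_univ a) ha
    · rw [hGl.K_out j (not_le.1 hj), one_smul, Finset.sum_eq_single a]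
      · rw [zK, if_neg hj, Matrix.one_apply_eq, one_smul]
      · intro c _ hc
        rw [zK, if_neg hj, Matrix.one_apply_ne hc, zero_smul]
      · intro ha
        exact absurd (Finset.mem_univ a) ha
  have hE : ∀ k, mA b (gE N l q k) = zE V (fun _ => (1 : ℂ)) (fun _ => 1) lam k := by
    intro k
    apply mA_eq
    intro a
    by_cases hk : k < N
    · have h1 := V.com (A N l q) _ _ (gE N l q) (gF N l q) (gK N l q) hGT k hk a
      have e1 := kk_smul_v hql (zgen q lam) k (k + 1) _ _ (hKv k hk.le) (hKv (k + 1) hk)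
      have e2 := kk_smul_v hql (zgen q lam) (k + 1) k _ _ (hKv (k + 1) hk) (hKv k hk.le)
      have h2 : ∀ c, zE V (fun _ => (1 : ℂ)) (fun _ => 1) lam k c a
          = qz q (lx lam k - lx lam (k + 1)) * V.P k c a
            - qz q (lx lam (k + 1) - lx lam k) * V.Q k c a := by
        intro c
        rw [zE, if_pos hk, Matrix.sub_apply, Matrix.smul_apply, Matrix.smul_apply,
          Matrix.map_apply, Matrix.map_apply]
        simp only [Algebra.algebraMap_self, RingHom.id_apply, mul_one, smul_eq_mul]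
      rw [hb, ← mul_smul, h1, sub_smul, add_smul, mul_smul, hE0 k, smul_zero, zero_add,
        Finset.sum_smul, Finset.sum_smul, ← Finset.sum_sub_distrib]
      refine Finset.sum_congr rfl fun c _ => ?_
      rw [h2, one_mul, one_mul, smul_assoc, smul_assoc, mul_smul, mul_smul, e1, e2,
        smul_smul_comm, smul_smul_comm, ← hb, smul_smul, smul_smul, ← sub_smul, mul_comm,
        mul_comm (V.Q k c a)]
    · rw [hGl.E_out k (not_lt.1 hk), zero_smul]
      symm
      apply Finset.sum_eq_zero
      intro c _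
      rw [zE, if_neg hk, Matrix.zero_apply, zero_smul]
  have hb0 : b (zX N l) = zgen q lam := by rw [hb, mon_zX, one_smul]
  refine ⟨?_, fun k => ?_, fun a => ?_⟩
  · have := hGl.map (mA b)
    rw [funext hE, funext hF, funext hK] at this
    exact this
  · rw [← hE, mA_single, hb0, hE0 k]
    funext i
    rw [map_zero]
    rfl
  · rw [← funext hF, mon_map', mA_single, hb0, ← hb, b.repr_self]
    funext i
    rw [Finsupp.single_apply, Pi.single_apply]
    by_cases h : a = i
    · rw [if_pos h, if_pos h.symm]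
    · rw [if_neg h, if_neg (Ne.symm h)]

end

end Pool.Agent.Helper81.SQC
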